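import Pool.Agent.Helper7.DivSub.Setup

/-!
# Chains of division subalgebras and almost invariant subspaces

Let `Q` be a division algebra over `K` and `T ⊆ Q` a finite-dimensional `K`-subspace.  For a
division subring `D` of `Q` let `hcap D T y` be the largest dimension of a `K`-subspace of `T` which
lies in a left `D`-subspace of `Q` of `D`-dimension at most `y`.  If `D' ⊂ D` and `e ∈ D \ D'` almost
leaves `T` invariant then `2 hcap D' T y ≤ hcap D T y + hcap D T (y / 2) + δ`.
-/

open Module

namespace Pool.Agent.Helper96.DivChain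

open Pool.Agent.Helper7.DivSub

variable {K Q : Type*} [Field K] [DivisionRing Q] [Algebra K Q]

/-- The `K`-subspace `W` of `T` lies in a left `D`-subspace of `D`-dimension at most `y`. -/
def Cap (D : Subfield Q) (T : Submodule K Q) (y : ℕ) (W : Submodule K Q) : Prop :=
  W ≤ T ∧ ∃ P : Submodule D Q, Module.rank D P ≤ (y : Cardinal) ∧ ∀ w ∈ W, w ∈ P

/-- The largest dimension of a `K`-subspace of `T` lying in a left `D`-subspace of dimension at
most `y`. -/
noncomputable def hcap (D : Subfield Q) (T : Submodule K Q) (y : ℕ) : ℕ :=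
  sSup {n | ∃ W : Submodule K Q, Cap D T y W ∧ finrank K W = n}

section

variable {D : Subfield Q} {T : Submodule K Q} [FiniteDimensional K T]

lemma bdd (y : ℕ) : BddAbove {n | ∃ W : Submodule K Q, Cap D T y W ∧ finrank K W = n} := by
  refine ⟨finrank K T, ?_⟩
  rintro n ⟨W, hW, rfl⟩
  exact Submodule.finrank_mono hW.1

lemma le_hcap {y : ℕ} {W : Submodule K Q} (hW : Cap D T y W) : finrank K W ≤ hcap D T y :=
  le_csSup (bdd y) ⟨W, hW, rfl⟩

omit [FiniteDimensional K T] in
lemma cap_bot (y : ℕ) : Cap D T y (⊥ : Submodule K Q) := by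
  refine ⟨bot_le, ⊥, ?_, ?_⟩
  · rw [rank_bot]; exact bot_le
  · intro w hw
    rw [(Submodule.mem_bot K).1 hw]
    exact zero_mem _

lemma exists_hcap (D : Subfield Q) (T : Submodule K Q) [FiniteDimensional K T] (y : ℕ) :
    ∃ W : Submodule K Q, Cap D T y W ∧ finrank K W = hcap D T y :=
  Nat.sSup_mem (s := {n | ∃ W : Submodule K Q, Cap D T y W ∧ finrank K W = n})
    ⟨_, ⊥, cap_bot y, rfl⟩ (bdd (D := D) (T := T) y)

lemma hcap_le (D : Subfield Q) (T : Submodule K Q) [FiniteDimensional K T] (y : ℕ) :
    hcap D T y ≤ finrank K T := by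
  obtain ⟨W, hW, h⟩ := exists_hcap D T y
  rw [← h]
  exact Submodule.finrank_mono hW.1

lemma hcap_zero (D : Subfield Q) (T : Submodule K Q) [FiniteDimensional K T] :
    hcap D T 0 = 0 := by
  obtain ⟨W, ⟨_, P, hP, hWP⟩, h⟩ := exists_hcap D T 0
  have h0 : Module.rank D P = 0 := le_antisymm (by simpa using hP) bot_le
  have hP0 : P = ⊥ := Submodule.rank_eq_zero.1 h0
  have hW0 : W = ⊥ := by
    rw [eq_bot_iff]
    intro w hw
    have := hWP w hw
    rw [hP0] at this
    exact (Submodule.mem_bot K).2 ((Submodule.mem_bot D).1 this)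
  rw [← h, hW0, finrank_bot]

lemma hcap_full (D : Subfield Q) (hK : ∀ k : K, algebraMap K Q k ∈ D) (T : Submodule K Q)
    [FiniteDimensional K T] (y : ℕ) (hy : finrank K T ≤ y) : hcap D T y = finrank K T := by
  refine le_antisymm (hcap_le D T y) (le_hcap ⟨le_rfl, ?_⟩)
  set b := Module.finBasis K T with hb
  set s : Set Q := Set.range (fun i => (b i : Q)) with hs
  refine ⟨Submodule.span D s, ?_, ?_⟩
  · have h1 : Module.rank D (Submodule.span D s) ≤ Cardinal.mk s := rank_span_le s
    have h2 : Cardinal.mk s ≤ (finrank K T : Cardinal) := by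
      have h3 := Cardinal.mk_range_le_lift (f := fun i => (b i : Q))
      simp only [Cardinal.mk_fin, Cardinal.lift_natCast] at h3
      have h4 := Cardinal.lift_le_nat_iff.1 h3
      exact h4
    refine h1.trans (h2.trans ?_)
    exact_mod_cast hy
  · intro w hw
    have h1 : (⟨w, hw⟩ : T) ∈ Submodule.span K (Set.range b) := by rw [b.span_eq]; trivial
    have h2 : w ∈ (Submodule.span K (Set.range b)).map T.subtype := ⟨⟨w, hw⟩, h1, rfl⟩
    rw [Submodule.map_span] at h2
    have h3 : Submodule.span K (T.subtype '' Set.range b) ≤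
        toK D hK (Submodule.span D s) := by
      rw [Submodule.span_le]
      rintro _ ⟨_, ⟨i, rfl⟩, rfl⟩
      exact Submodule.subset_span ⟨i, rfl⟩
    exact h3 h2

end

/-- Left `D`-independent elements stay independent over a smaller `D'` together with their
multiples by an element `e ∈ D \ D'`. -/
lemma indep_double {D D' : Subfield Q} (h : D' ≤ D) {e : Q} (he : e ∈ D) (he' : e ∉ D')
    {ι : Type*} [Fintype ι] (v : ι → Q) (hv : LinearIndependent D v) :
    LinearIndependent D' (Sum.elim v (fun i => e * v i)) := by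
  rw [Fintype.linearIndependent_iff] at hv ⊢
  intro g hg
  rw [Fintype.sum_sum_type] at hg
  simp only [Sum.elim_inl, Sum.elim_inr] at hg
  have key : ∀ i, (⟨(g (Sum.inl i) : Q), h (g (Sum.inl i)).2⟩ +
      ⟨(g (Sum.inr i) : Q), h (g (Sum.inr i)).2⟩ * ⟨e, he⟩ : D) = 0 := by
    apply hv
    rw [← hg, ← Finset.sum_add_distrib]
    apply Finset.sum_congr rfl
    intro i _
    change (((g (Sum.inl i) : D') : Q) + ((g (Sum.inr i) : D') : Q) * e) * v i =
      ((g (Sum.inl i) : D') : Q) * v i + ((g (Sum.inr i) : D') : Q) * (e * v i)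
    rw [add_mul, mul_assoc]
  have key2 : ∀ i, ((g (Sum.inl i) : D') : Q) + ((g (Sum.inr i) : D') : Q) * e = 0 := by
    intro i
    exact congrArg (Subtype.val) (key i)
  have hr : ∀ i, g (Sum.inr i) = 0 := by
    intro i
    by_contra hne
    have hne' : ((g (Sum.inr i) : D') : Q) ≠ 0 := fun h0 => hne (Subtype.ext h0)
    apply he'
    have h1 : ((g (Sum.inr i) : D') : Q) * e = -((g (Sum.inl i) : D') : Q) := by
      rw [eq_neg_iff_add_eq_zero, add_comm]; exact key2 i
    have h2 : e = ((g (Sum.inr i) : D') : Q)⁻¹ * (-((g (Sum.inl i) : D') : Q)) := by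
      rw [← h1, ← mul_assoc, inv_mul_cancel₀ hne', one_mul]
    rw [h2]
    exact D'.mul_mem (D'.inv_mem (g (Sum.inr i)).2) (D'.neg_mem (g (Sum.inl i)).2)
  rintro (i | i)
  · have := key2 i
    rw [hr i] at this
    simp only [ZeroMemClass.coe_zero, zero_mul, add_zero] at this
    exact Subtype.ext this
  · exact hr i

/-- The step inequality. -/
lemma step {D D' : Subfield Q} (h : D' ≤ D) {e : Q} (he : e ∈ D) (he' : e ∉ D')
    (T : Submodule K Q) [FiniteDimensional K T] (y δ : ℕ)
    (hδ : finrank K ↥(T ⊔ T.map (LinearMap.mulLeft K e)) ≤ finrank K T + δ) :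
    2 * hcap D' T y ≤ hcap D T y + hcap D T (y / 2) + δ := by
  obtain ⟨W, ⟨hWT, P, hP, hWP⟩, hW⟩ := exists_hcap D' T y
  have he0 : e ≠ 0 := fun h0 => he' (h0 ▸ D'.zero_mem)
  have hinj : Function.Injective (LinearMap.mulLeft K e : Q →ₗ[K] Q) := by
    intro a b hab
    exact mul_left_cancel₀ he0 hab
  have hWfin : FiniteDimensional K W := Submodule.finiteDimensional_of_le hWT
  set eW := W.map (LinearMap.mulLeft K e) with heW
  have heWr : finrank K eW = finrank K W :=
    (LinearEquiv.finrank_eq (Submodule.equivMapOfInjective _ hinj W)).symm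
  -- the first capture
  have hc1 : finrank K ↥((W ⊔ eW) ⊓ T) ≤ hcap D T y := by
    apply le_hcap
    obtain ⟨b, hbP, hbspan, hbind⟩ := exists_linearIndependent D' (P : Set Q)
    refine ⟨inf_le_right, Submodule.span D b, ?_, ?_⟩
    · refine (rank_span_le b).trans ?_
      rw [← rank_span_set hbind, hbspan, Submodule.span_eq]
      exact hP
    · have h1 : ∀ w ∈ W, w ∈ Submodule.span D b := by
        intro w hw
        have h2 : w ∈ Submodule.span D' b := by
          rw [hbspan, Submodule.span_eq]
          exact hWP w hw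
        clear hw
        induction h2 using Submodule.span_induction with
        | mem x hx => exact Submodule.subset_span hx
        | zero => exact zero_mem _
        | add x y _ _ hx hy => exact add_mem hx hy
        | smul a x _ hx => exact Submodule.smul_mem _ (⟨(a : Q), h a.2⟩ : D) hx
      rintro w ⟨hw, _⟩
      obtain ⟨w1, hw1, w2, hw2, rfl⟩ := Submodule.mem_sup.1 hw
      obtain ⟨w3, hw3, rfl⟩ := hw2
      exact add_mem (h1 w1 hw1) (Submodule.smul_mem _ (⟨e, he⟩ : D) (h1 w3 hw3))
  -- the second capture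
  set W2 := W ⊓ W.comap (LinearMap.mulLeft K e) with hW2
  have hc2 : finrank K ↥W2 ≤ hcap D T (y / 2) := by
    apply le_hcap
    obtain ⟨b, hbW, hbspan, hbind⟩ := exists_linearIndependent D (W2 : Set Q)
    refine ⟨inf_le_left.trans hWT, Submodule.span D b, ?_, ?_⟩
    · refine (rank_span_le b).trans (Cardinal.card_le_of ?_)
      intro s
      have hs : LinearIndependent D (fun x : s => ((x : b) : Q)) :=
        hbind.comp (fun x : s => (x : b)) Subtype.val_injective
      have h2 := indep_double h he he' _ hs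
      have hmem : ∀ i, Sum.elim (fun x : s => ((x : b) : Q)) (fun x : s => e * ((x : b) : Q)) i ∈ P := by
        rintro (x | x)
        · exact hWP _ (hbW (x : b).2).1
        · exact hWP _ (hbW (x : b).2).2
      have h3 : LinearIndependent D' (fun i => (⟨_, hmem i⟩ : P)) := by
        apply LinearIndependent.of_comp P.subtype
        exact h2
      have h4 := h3.cardinal_lift_le_rank
      have h5 : Cardinal.lift (Module.rank D' P) ≤ Cardinal.lift ((y : ℕ) : Cardinal) :=
        Cardinal.lift_le.2 hP
      have h6 := h4.trans h5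
      simp only [Cardinal.mk_sum, Cardinal.mk_coe_finset, Cardinal.lift_natCast,
        Cardinal.lift_add] at h6
      have h7 : s.card + s.card ≤ y := by exact_mod_cast h6
      omega
    · intro w hw
      rw [hbspan]
      exact Submodule.subset_span hw
  -- dimension count
  have hfs1 : FiniteDimensional K ↥(W ⊔ eW) := inferInstance
  have hd1 := Submodule.finrank_sup_add_finrank_inf_eq (W ⊔ eW) T
  have hd2 : finrank K ↥((W ⊔ eW) ⊔ T) ≤ finrank K T + δ := by
    refine le_trans (Submodule.finrank_mono ?_) hδ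
    refine sup_le (sup_le (hWT.trans le_sup_left) ?_) le_sup_left
    exact (Submodule.map_mono hWT).trans le_sup_right
  have hd3 := Submodule.finrank_sup_add_finrank_inf_eq W eW
  have hd4 : finrank K ↥(W ⊓ eW) = finrank K ↥W2 := by
    have : W ⊓ eW = W2.map (LinearMap.mulLeft K e) := by
      ext z
      constructor
      · rintro ⟨hz, ⟨w, hw, rfl⟩⟩
        exact ⟨w, ⟨hw, hz⟩, rfl⟩
      · rintro ⟨w, ⟨hw1, hw2⟩, rfl⟩
        exact ⟨hw2, ⟨w, hw1, rfl⟩⟩
    rw [this]
    exact (LinearEquiv.finrank_eq (Submodule.equivMapOfInjective _ hinj W2)).symm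
  rw [← hW]
  omega

end Pool.Agent.Helper96.DivChain
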