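import Pool.Agent.Helper96.DivChain.Basic

/-!
# The chain inequality

A chain `D_0 ⊇ D_1 ⊇ … ⊇ D_L` of division subalgebras of `Q` with elements `e_j ∈ D_j \ D_(j+1)`
which almost leave invariant a `K`-subspace `T` of dimension at most `2 ^ I` has length
at most about `2 I`.
-/

open Module

namespace Pool.Agent.Helper96.DivChain

open Pool.Agent.Helper7.DivSub

variable {K Q : Type*} [Field K] [DivisionRing Q] [Algebra K Q]

/-- The summed step inequality. -/
lemma sum_step {D D' : Subfield Q} (h : D' ≤ D) {e : Q} (he : e ∈ D) (he' : e ∉ D')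
    (hK : ∀ k : K, algebraMap K Q k ∈ D)
    (T : Submodule K Q) [FiniteDimensional K T] (I δ : ℕ) (hI : finrank K T ≤ 2 ^ I)
    (hδ : finrank K ↥(T ⊔ T.map (LinearMap.mulLeft K e)) ≤ finrank K T + δ) :
    2 * (∑ i ∈ Finset.range (I + 1), (finrank K T - hcap D T (2 ^ i))) + finrank K T ≤
      2 * (∑ i ∈ Finset.range (I + 1), (finrank K T - hcap D' T (2 ^ i))) + (I + 1) * δ := by
  have hlast : finrank K T - hcap D T (2 ^ I) = 0 := by
    rw [hcap_full D hK T _ hI, Nat.sub_self]
  have h0 : (finrank K T - hcap D T (2 ^ 0)) + finrank K T ≤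
      2 * (finrank K T - hcap D' T (2 ^ 0)) + δ := by
    have h1 := step h he he' T (2 ^ 0) δ hδ
    have h2 : (2 ^ 0 / 2 : ℕ) = 0 := by norm_num
    rw [h2, hcap_zero] at h1
    have h3 := hcap_le D T (2 ^ 0)
    have h4 := hcap_le D' T (2 ^ 0)
    omega
  have hs : ∀ i, (finrank K T - hcap D T (2 ^ (i + 1))) + (finrank K T - hcap D T (2 ^ i)) ≤
      2 * (finrank K T - hcap D' T (2 ^ (i + 1))) + δ := by
    intro i
    have h1 := step h he he' T (2 ^ (i + 1)) δ hδ
    have h2 : (2 ^ (i + 1) / 2 : ℕ) = 2 ^ i := by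
      rw [pow_succ]; exact Nat.mul_div_cancel _ (by norm_num)
    rw [h2] at h1
    have h3 := hcap_le D T (2 ^ (i + 1))
    have h4 := hcap_le D' T (2 ^ (i + 1))
    have h5 := hcap_le D T (2 ^ i)
    omega
  have hsum : ∑ i ∈ Finset.range I, ((finrank K T - hcap D T (2 ^ (i + 1))) +
      (finrank K T - hcap D T (2 ^ i))) ≤
      ∑ i ∈ Finset.range I, (2 * (finrank K T - hcap D' T (2 ^ (i + 1))) + δ) :=
    Finset.sum_le_sum (fun i _ => hs i)
  rw [Finset.sum_add_distrib, Finset.sum_add_distrib, Finset.sum_const, Finset.card_range,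
    smul_eq_mul, ← Finset.mul_sum] at hsum
  have e1 : ∑ i ∈ Finset.range (I + 1), (finrank K T - hcap D T (2 ^ i)) =
      ∑ i ∈ Finset.range I, (finrank K T - hcap D T (2 ^ i)) := by
    rw [Finset.sum_range_succ, hlast, add_zero]
  have e2 := Finset.sum_range_succ' (fun i => finrank K T - hcap D T (2 ^ i)) I
  have e3 := Finset.sum_range_succ' (fun i => finrank K T - hcap D' T (2 ^ i)) I
  have e4 : (I + 1) * δ = I * δ + δ := by ring
  rw [e4]
  omega

/-- The chain inequality. -/
theorem chain_ineq (T : Submodule K Q) [FiniteDimensional K T] (I L δ : ℕ)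
    (D : ℕ → Subfield Q) (e : ℕ → Q) (hK : ∀ k : K, algebraMap K Q k ∈ D L)
    (hD : ∀ j < L, D (j + 1) ≤ D j) (he : ∀ j < L, e j ∈ D j) (he' : ∀ j < L, e j ∉ D (j + 1))
    (hI : finrank K T ≤ 2 ^ I)
    (hδ : ∀ j < L, finrank K ↥(T ⊔ T.map (LinearMap.mulLeft K (e j))) ≤ finrank K T + δ) :
    L * finrank K T ≤ 2 * I * finrank K T + L * ((I + 1) * δ) := by
  have hle : ∀ n j, j + n = L → D L ≤ D j := by
    intro n
    induction n with
    | zero => intro j hj; rw [← hj, add_zero]
    | succ n ih =>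
      intro j hj
      exact (ih (j + 1) (by omega)).trans (hD j (by omega))
  have hKj : ∀ j ≤ L, ∀ k : K, algebraMap K Q k ∈ D j := fun j hj k =>
    hle (L - j) j (by omega) (hK k)
  have hind : ∀ n ≤ L, 2 * (∑ i ∈ Finset.range (I + 1), (finrank K T - hcap (D 0) T (2 ^ i))) +
      n * finrank K T ≤ 2 * (∑ i ∈ Finset.range (I + 1), (finrank K T - hcap (D n) T (2 ^ i))) +
      n * ((I + 1) * δ) := by
    intro n
    induction n with
    | zero => intro _; simp
    | succ n ih =>
      intro hn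
      have h1 := ih (by omega)
      have h2 := sum_step (hD n (by omega)) (he n (by omega)) (he' n (by omega))
        (hKj n (by omega)) T I δ hI (hδ n (by omega))
      rw [add_mul, add_mul, one_mul, one_mul]
      omega
  have h1 := hind L le_rfl
  have h2 : ∑ i ∈ Finset.range (I + 1), (finrank K T - hcap (D L) T (2 ^ i)) ≤
      I * finrank K T := by
    rw [Finset.sum_range_succ, hcap_full (D L) (hKj L le_rfl) T _ hI, Nat.sub_self, add_zero]
    calc ∑ i ∈ Finset.range I, (finrank K T - hcap (D L) T (2 ^ i))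
        ≤ ∑ i ∈ Finset.range I, finrank K T := Finset.sum_le_sum (fun i _ => Nat.sub_le _ _)
      _ = I * finrank K T := by rw [Finset.sum_const, Finset.card_range, smul_eq_mul]
  have h3 : 2 * (∑ i ∈ Finset.range (I + 1), (finrank K T - hcap (D L) T (2 ^ i))) ≤
      2 * I * finrank K T := by
    rw [mul_assoc]
    exact Nat.mul_le_mul_left 2 h2
  omega

end Pool.Agent.Helper96.DivChain
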