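import Pool.Agent.Helper41.CT.Cost
import Pool.Agent.Helper7.DivSub.Setup

/-!
# Weighted rational expressions and their cost
-/

open Module

namespace Pool.Agent.Helper96.DivChain

open Pool.Agent.Helper7.DivSub Pool.Agent.Helper41.CT

variable {K A Q : Type*} [Field K] [Ring A] [Algebra K A] [DivisionRing Q] [Algebra K Q]

/-- `Weight ι V n q`: the element `q` of `Q` is the value of a rational expression of weight `n`: it
is built by sums, products and inverses from left fractions `b⁻¹ a`; such a fraction with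
`a, b ∈ V ^ s` has weight `s`, and the weights of the fractions that occur add up to `n`. -/
inductive Weight (ι : A →ₐ[K] Q) (V : Submodule K A) : ℕ → Q → Prop
  | frac {s : ℕ} {a b : A} (ha : a ∈ V ^ s) (hb : b ∈ V ^ s) (hb0 : b ≠ 0) :
      Weight ι V s ((ι b)⁻¹ * ι a)
  | add {m n : ℕ} {x y : Q} (hx : Weight ι V m x) (hy : Weight ι V n y) :
      Weight ι V (m + n) (x + y)
  | mul {m n : ℕ} {x y : Q} (hx : Weight ι V m x) (hy : Weight ι V n y) :
      Weight ι V (m + n) (x * y)
  | inv {m : ℕ} {x : Q} (hx : Weight ι V m x) : Weight ι V m x⁻¹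

/-- The cost of an expression of weight `n` for `T = V ^ m`, if the increments of the growth function
after `m` are at most linear with slope `β`. -/
lemma Weight.bd {ι : A →ₐ[K] Q} (hι : Function.Injective ι) {V : Submodule K A}
    [FiniteDimensional K V] {n : ℕ} {q : Q}
    (h : Weight ι V n q) {m B : ℕ} {β : ℝ}
    (hβ : ∀ s : ℕ, s ≤ B → (finrank K ↥((V.map ι.toLinearMap) ^ (m + s)) : ℝ) -
      finrank K ↥((V.map ι.toLinearMap) ^ m) ≤ β * s) (hn : n ≤ B) :
    ∃ c : ℕ, Bd ((V.map ι.toLinearMap) ^ m) q c ∧ (c : ℝ) ≤ β * n := by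
  induction h with
  | @frac s a b ha hb hb0 =>
    have hpow : ∀ n : ℕ, (V.map ι.toLinearMap) ^ n = (V ^ n).map ι.toLinearMap := fun n =>
      (Submodule.map_pow V ι n).symm
    have ha' : ι a ∈ (V.map ι.toLinearMap) ^ s := by rw [hpow]; exact ⟨a, ha, rfl⟩
    have hb' : ι b ∈ (V.map ι.toLinearMap) ^ s := by rw [hpow]; exact ⟨b, hb, rfl⟩
    have hb0' : ι b ≠ 0 := fun h => hb0 (hι (h.trans (map_zero ι).symm))
    have h1 := near_one (V.map ι.toLinearMap) (m := m) ha' hb' hb0'
    refine ⟨finrank K ↥((V.map ι.toLinearMap) ^ (m + s)) -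
      finrank K ↥((V.map ι.toLinearMap) ^ m), ?_, ?_⟩
    · unfold Bd
      omega
    · rcases le_total (finrank K ↥((V.map ι.toLinearMap) ^ m))
        (finrank K ↥((V.map ι.toLinearMap) ^ (m + s))) with hle | hle
      · rw [Nat.cast_sub hle]
        exact hβ s hn
      · have : finrank K ↥((V.map ι.toLinearMap) ^ m) ≤
            finrank K ↥((V.map ι.toLinearMap) ^ (m + s)) := by
          refine le_trans (Submodule.finrank_mono le_sup_right) h1
        rw [Nat.cast_sub this]
        exact hβ s hn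
  | @add m' n' x y _ _ hx hy =>
    obtain ⟨c, hc, hc'⟩ := hx (by omega)
    obtain ⟨c2, hc2, hc2'⟩ := hy (by omega)
    refine ⟨c + c2, hc.add hc2, ?_⟩
    push_cast
    linarith
  | @mul m' n' x y _ _ hx hy =>
    obtain ⟨c, hc, hc'⟩ := hx (by omega)
    obtain ⟨c2, hc2, hc2'⟩ := hy (by omega)
    refine ⟨c + c2, hc.mul hc2, ?_⟩
    push_cast
    linarith
  | @inv m' x _ hx =>
    obtain ⟨c, hc, hc'⟩ := hx (by omega)
    exact ⟨c, hc.inv, hc'⟩

end Pool.Agent.Helper96.DivChain
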