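import Pool.Agent.Helper96.DivChain.Chain
import Pool.Agent.Helper96.DivChain.Weight
import Pool.Agent.Helper85.DivChain.Scale2

/-!
# Chains of division subalgebras have logarithmic length
-/

open Module Filter

namespace Pool.Agent.Helper96.DivChain

open Pool.Agent.Helper7.DivSub Pool.Agent.Helper41.CT Pool.Agent.Helper85.DivChain

variable {K A Q : Type*} [Field K] [Ring A] [Algebra K A] [DivisionRing Q] [Algebra K Q]

/-- Chains of division subalgebras with witnesses of weight at most `k` have length at most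
`2 d log_2 k + C`, for every `d` larger than the Gelfand-Kirillov dimension. -/
theorem general (ι : A →ₐ[K] Q) (hι : Function.Injective ι) (V : Submodule K A)
    [hV : FiniteDimensional K V] (h1 : (1 : A) ∈ V) (d : ℝ) (hd : GKdim K A < (d : EReal)) :
    ∃ C : ℝ, ∀ (k L : ℕ) (D : ℕ → Subfield Q) (e : ℕ → Q), 1 ≤ k →
      (∀ x : K, algebraMap K Q x ∈ D L) → (∀ j < L, D (j + 1) ≤ D j) →
      (∀ j < L, e j ∈ D j ∧ e j ∉ D (j + 1) ∧ ∃ n ≤ k, Weight ι V n (e j)) →
      (L : ℝ) ≤ 2 * d * Real.logb 2 k + C := by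
  have hpow : ∀ n : ℕ, finrank K ↥((V.map ι.toLinearMap) ^ n) = finrank K ↥(V ^ n) := by
    intro n
    have h2 : (V.map ι.toLinearMap) ^ n = (V ^ n).map ι.toLinearMap :=
      (Submodule.map_pow V ι n).symm
    rw [h2]
    exact (LinearEquiv.finrank_eq
      (Submodule.equivMapOfInjective ι.toLinearMap hι (V ^ n))).symm
  have h1' : (1 : Q) ∈ V.map ι.toLinearMap := ⟨1, h1, map_one ι⟩
  set f : ℕ → ℕ := fun n => finrank K ↥((V.map ι.toLinearMap) ^ n) with hf
  have hf1 : ∀ n, 1 ≤ f n := fun n => finrank_pow_pos h1' n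
  have hmono : Monotone f := fun a b hab =>
    Submodule.finrank_mono (pow_le_pow_of_one_mem h1' hab)
  have hlim : limsup (fun n : ℕ => ((Real.log (f n) / Real.log n : ℝ) : EReal)) atTop <
      (d : EReal) := by
    refine lt_of_le_of_lt ?_ hd
    simp only [hf, hpow]
    unfold GKdim
    exact le_iSup_of_le V (le_iSup_of_le hV (le_iSup_of_le h1 le_rfl))
  obtain ⟨d0, hd0, hub0⟩ := eventually_le_of_limsup f hf1 d hlim
  have hd00 : 0 ≤ d0 := by
    by_contra hneg
    push Not at hneg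
    obtain ⟨n, hn, hn2⟩ := (hub0.and (eventually_ge_atTop 2)).exists
    have h2 : (1 : ℝ) ≤ f n := by exact_mod_cast hf1 n
    have h3 : (n : ℝ) ^ d0 < 1 :=
      Real.rpow_lt_one_of_one_lt_of_neg (by exact_mod_cast (by omega : 1 < n)) hneg
    linarith
  -- an exponent strictly between
  set d1 : ℝ := (d0 + d) / 2 with hd1
  have hd1pos : 0 < d1 := by rw [hd1]; linarith
  have hd1d : d1 < d := by rw [hd1]; linarith
  have hub : ∀ᶠ n : ℕ in atTop, (f n : ℝ) ≤ (n : ℝ) ^ d1 := by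
    filter_upwards [hub0, eventually_ge_atTop 1] with n hn hn1
    refine hn.trans ?_
    exact Real.rpow_le_rpow_of_exponent_le (by exact_mod_cast hn1) (by rw [hd1]; linarith)
  -- the accuracy
  set δ : ℝ := (d - d1) / (d + d1) / 2 with hδdef
  have hsum : 0 < d + d1 := by linarith
  have hδ0 : 0 < δ := by
    rw [hδdef]
    have : 0 < d - d1 := by linarith
    positivity
  have hδ1 : δ ≤ 1 / 2 := by
    rw [hδdef, div_le_iff₀ (by norm_num), div_le_iff₀ hsum]
    linarith
  have hδd : d1 * (1 + δ) ≤ d * (1 - δ) := by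
    have : δ * (d + d1) = (d - d1) / 2 := by
      rw [hδdef]; field_simp
    nlinarith
  obtain ⟨B0, hB0⟩ := eventually_atTop.1
    (scale2 f hf1 hmono d1 δ hd1pos hδ0 (by linarith) hub)
  set B1 : ℕ := max B0 1 with hB1
  have hB1pos : 1 ≤ B1 := le_max_right _ _
  refine ⟨2 * (d * Real.logb 2 B1 + (d1 + 1) / (1 - δ)), ?_⟩
  intro k L D e hk hK hD he
  set B : ℕ := k * B1 with hB
  have hBB0 : B0 ≤ B := by
    calc B0 ≤ B1 := le_max_left _ _
      _ = 1 * B1 := (one_mul _).symm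
      _ ≤ k * B1 := Nat.mul_le_mul_right _ hk
  have hkB : k ≤ B := by
    calc k = k * 1 := (mul_one _).symm
      _ ≤ k * B1 := Nat.mul_le_mul_left _ hB1pos
  have hBpos : 1 ≤ B := hk.trans hkB
  obtain ⟨m, I, hfm, hinc, hI⟩ := hB0 B hBB0
  have hBr : (1 : ℝ) ≤ B := by exact_mod_cast hBpos
  have hIr : (0 : ℝ) ≤ I := Nat.cast_nonneg I
  have hfmr : (1 : ℝ) ≤ f m := by exact_mod_cast hf1 m
  set β : ℝ := δ * f m / (B * (I + 2)) with hβ
  have hβ0 : 0 ≤ β := by rw [hβ]; positivity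
  have hβs : ∀ s : ℕ, s ≤ B → ((f (m + s) : ℝ) - f m) ≤ β * s := by
    intro s hs
    have h2 := hinc s hs
    rw [hβ, div_mul_eq_mul_div, le_div_iff₀ (by positivity)]
    calc ((f (m + s) : ℝ) - f m) * (B * (I + 2)) = (B : ℝ) * ((I : ℝ) + 2) *
        ((f (m + s) : ℝ) - f m) := by ring
      _ ≤ δ * s * f m := h2
      _ = δ * f m * s := by ring
  -- the cost of the witnesses
  set T : Submodule K Q := (V.map ι.toLinearMap) ^ m with hT
  have hcost : ∀ j < L, finrank K ↥(T ⊔ T.map (LinearMap.mulLeft K (e j))) ≤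
      finrank K T + ⌊β * k⌋₊ := by
    intro j hj
    obtain ⟨_, _, n, hnk, hw⟩ := he j hj
    obtain ⟨c, hc, hc'⟩ := hw.bd hι (m := m) (B := B) (β := β) hβs (hnk.trans hkB)
    have h2 : c ≤ ⌊β * k⌋₊ := by
      apply Nat.le_floor
      refine hc'.trans ?_
      have : (n : ℝ) ≤ k := by exact_mod_cast hnk
      gcongr
    have h3 := hc.mono h2
    unfold Bd at h3
    rw [sup_comm]
    exact h3
  have hfinT : FiniteDimensional K T := inferInstance
  have hchain := chain_ineq T I L ⌊β * k⌋₊ D e hK hD (fun j hj => (he j hj).1)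
    (fun j hj => (he j hj).2.1) hfm hcost
  have hfT : finrank K T = f m := rfl
  rw [hfT] at hchain
  have hchain' : (L : ℝ) * f m ≤ 2 * I * f m + L * ((I + 1) * (⌊β * k⌋₊ : ℝ)) := by
    exact_mod_cast hchain
  have hfl : (⌊β * k⌋₊ : ℝ) ≤ β * k := Nat.floor_le (by positivity)
  have hbk : ((I : ℝ) + 1) * (β * k) ≤ δ * f m := by
    have h2 : β * k ≤ β * B := by
      have : (k : ℝ) ≤ B := by exact_mod_cast hkB
      gcongr
    have h3 : β * B = δ * f m / (I + 2) := by
      rw [hβ]; field_simp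
    have h4 : ((I : ℝ) + 1) * (δ * f m / (I + 2)) ≤ δ * f m := by
      rw [mul_div_assoc', div_le_iff₀ (by positivity)]
      have : 0 ≤ δ * f m := by positivity
      nlinarith
    calc ((I : ℝ) + 1) * (β * k) ≤ ((I : ℝ) + 1) * (β * B) := by gcongr
      _ = ((I : ℝ) + 1) * (δ * f m / (I + 2)) := by rw [h3]
      _ ≤ _ := h4
  have hLr : (0 : ℝ) ≤ L := Nat.cast_nonneg L
  have h5 : (L : ℝ) * f m ≤ 2 * I * f m + L * (δ * f m) := by
    refine hchain'.trans ?_
    have : ((I : ℝ) + 1) * (⌊β * k⌋₊ : ℝ) ≤ ((I : ℝ) + 1) * (β * k) := by gcongr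
    have h6 := this.trans hbk
    gcongr
  have h6 : (L : ℝ) * (1 - δ) ≤ 2 * I := by
    have h7 : ((L : ℝ) * (1 - δ)) * f m ≤ (2 * I) * f m := by linarith
    exact le_of_mul_le_mul_right h7 (by linarith)
  -- the conclusion
  have h1δ : 0 < 1 - δ := by linarith
  have hkr : (1 : ℝ) ≤ k := by exact_mod_cast hk
  have hB1r : (1 : ℝ) ≤ B1 := by exact_mod_cast hB1pos
  have hlogB : Real.logb 2 B = Real.logb 2 k + Real.logb 2 B1 := by
    rw [hB]
    push_cast
    rw [Real.logb_mul (by positivity) (by positivity)]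
  have hlogk : 0 ≤ Real.logb 2 k := Real.logb_nonneg (by norm_num) hkr
  have hlogB1 : 0 ≤ Real.logb 2 B1 := Real.logb_nonneg (by norm_num) hB1r
  have h7 : (I : ℝ) ≤ d * (1 - δ) * (Real.logb 2 k + Real.logb 2 B1) + (d1 + 1) := by
    rw [hlogB] at hI
    have : d1 * (1 + δ) * (Real.logb 2 k + Real.logb 2 B1) ≤
        d * (1 - δ) * (Real.logb 2 k + Real.logb 2 B1) := by gcongr
    linarith
  have h8 : (L : ℝ) ≤ 2 * I / (1 - δ) := by
    rw [le_div_iff₀ h1δ]; exact h6
  have h9 : 2 * (I : ℝ) / (1 - δ) ≤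
      2 * (d * (Real.logb 2 k + Real.logb 2 B1) + (d1 + 1) / (1 - δ)) := by
    rw [div_le_iff₀ h1δ]
    have : (d1 + 1) / (1 - δ) * (1 - δ) = d1 + 1 := by field_simp
    nlinarith
  linarith

end Pool.Agent.Helper96.DivChain
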